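import Mathlib
import Pool.Agent.Hhelper18.BEI.Main

/-!
# The local v-number of a binomial edge ideal at `P_∅(G)` is at most the regularity

For every finite simple graph `G` on `n` vertices and every field `K` we prove
`v_∅(J_G) ≤ reg(S/J_G)`.

The polynomial ring `S` has the variables `x_i = X (toLex (Sum.inl i))` and
`y_i = X (toLex (Sum.inr i))`, indexed by `Fin n ⊕ₗ Fin n` (the sum of two copies of `Fin n` with
the order `x_0 < ⋯ < x_{n-1} < y_0 < ⋯ < y_{n-1}`, which only serves to fix the signs of the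
Koszul complex).  The regularity is read off from the graded Koszul homology
`H_i(x, y; S/I) = Tor_i(S/I, K)`.
-/

namespace Pool.Agent.Results.MP_09f072_ag.VNumber

open MvPolynomial

/-- The polynomial ring `S = K[x_1, …, x_n, y_1, …, y_n]`. -/
abbrev S (n : ℕ) (K : Type*) [Field K] := MvPolynomial (Fin n ⊕ₗ Fin n) K

/-- The variable `x_i`. -/
noncomputable def x {n : ℕ} (K : Type*) [Field K] (i : Fin n) : S n K := X (toLex (Sum.inl i))

/-- The variable `y_i`. -/
noncomputable def y {n : ℕ} (K : Type*) [Field K] (i : Fin n) : S n K := X (toLex (Sum.inr i))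

/-- The binomial edge ideal `J_G = (x_i y_j - x_j y_i : {i,j} an edge, i < j)`. -/
noncomputable def J {n : ℕ} (K : Type*) [Field K] (G : SimpleGraph (Fin n)) : Ideal (S n K) :=
  Ideal.span {p | ∃ i j : Fin n, i < j ∧ G.Adj i j ∧ p = x K i * y K j - x K j * y K i}

/-- The ideal `P_∅(G) = (x_i y_j - x_j y_i : i < j in one connected component of G)`. -/
noncomputable def P {n : ℕ} (K : Type*) [Field K] (G : SimpleGraph (Fin n)) : Ideal (S n K) :=
  Ideal.span {p | ∃ i j : Fin n, i < j ∧ G.Reachable i j ∧ p = x K i * y K j - x K j * y K i}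

/-- The local v-number `v_∅(J_G)`: the least degree of a homogeneous `f` with
`(J_G : f) = P_∅(G)`. -/
noncomputable def vEmpty {n : ℕ} (K : Type*) [Field K] (G : SimpleGraph (Fin n)) : ℕ∞ :=
  sInf {d : ℕ∞ | ∃ (e : ℕ) (f : S n K), d = e ∧ f.IsHomogeneous e ∧
    ∀ g : S n K, g * f ∈ J K G ↔ g ∈ P K G}

section Koszul

variable {σ : Type*} [Fintype σ] [LinearOrder σ] {K : Type*} [Field K]

/-- The differential of the Koszul complex of the variables of a polynomial ring.  A chain
`∑_L f_L e_L` is the function `f` of the set `L` of indices; contraction with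
`∑_s X_s e_s^*` sends `e_{L ∪ s}` to `(-1)^{#{t ∈ L : t < s}} X_s e_L` plus other terms. -/
noncomputable def koszul (f : Finset σ → MvPolynomial σ K) (L : Finset σ) : MvPolynomial σ K :=
  ∑ s, if s ∈ L then 0 else (-1) ^ (L.filter (· < s)).card * (X s * f (insert s L))

/-- `H_i(K(variables; S/I))` is nonzero in degree `i + k`, that is `β_{i,i+k}(S/I) ≠ 0`: some
chain in homological position `i` with coefficients homogeneous of degree `k` is a cycle
modulo `I` and not a boundary modulo `I`. -/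
def BettiNeZero (I : Ideal (MvPolynomial σ K)) (i k : ℕ) : Prop :=
  ∃ f : Finset σ → MvPolynomial σ K, (∀ L, f L ≠ 0 → L.card = i) ∧
    (∀ L, (f L).IsHomogeneous k) ∧ (∀ L, koszul f L ∈ I) ∧
    ¬ ∃ g : Finset σ → MvPolynomial σ K, ∀ L, f L - koszul g L ∈ I

/-- The Castelnuovo-Mumford regularity
`reg (S/I) = sup {k : Tor_i(S/I, K)_{i+k} ≠ 0 for some i}`, with `Tor` computed by the Koszul
complex. -/
noncomputable def reg (I : Ideal (MvPolynomial σ K)) : ℕ∞ :=
  ⨆ (k : ℕ) (_ : ∃ i, BettiNeZero I i k), (k : ℕ∞)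

theorem koszul_eq (f : Finset σ → MvPolynomial σ K) (L : Finset σ) :
    koszul f L = BEI.bd X f L := by
  unfold koszul BEI.bd
  refine Finset.sum_congr rfl fun s _ => ?_
  unfold BEI.ann BEI.sg
  split_ifs <;> ring

end Koszul

theorem J_eq {n : ℕ} (K : Type*) [Field K] (G : SimpleGraph (Fin n)) :
    J K G = BEI.J K G.Adj := by
  refine le_antisymm (Ideal.span_le.2 ?_) (Ideal.span_le.2 ?_)
  · rintro p ⟨i, j, -, h, rfl⟩
    exact BEI.minor_mem h
  · rintro p ⟨i, j, h, rfl⟩
    rcases lt_trichotomy i j with hij | hij | hij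
    · exact Ideal.subset_span ⟨i, j, hij, h, rfl⟩
    · subst hij; exact absurd h (G.irrefl)
    · rw [BEI.minor_comm j i, SetLike.mem_coe, Ideal.neg_mem_iff]
      exact Ideal.subset_span ⟨j, i, hij, h.symm, rfl⟩

theorem P_eq {n : ℕ} (K : Type*) [Field K] (G : SimpleGraph (Fin n)) :
    P K G = BEI.J K G.Reachable := by
  refine le_antisymm (Ideal.span_le.2 ?_) (Ideal.span_le.2 ?_)
  · rintro p ⟨i, j, -, h, rfl⟩
    exact BEI.minor_mem h
  · rintro p ⟨i, j, h, rfl⟩
    rcases lt_trichotomy i j with hij | hij | hij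
    · exact Ideal.subset_span ⟨i, j, hij, h, rfl⟩
    · subst hij; rw [BEI.minor_self]; exact Ideal.zero_mem _
    · rw [BEI.minor_comm j i, SetLike.mem_coe, Ideal.neg_mem_iff]
      exact Ideal.subset_span ⟨j, i, hij, h.symm, rfl⟩

/-- **The answer to Q1**: `v_∅(J_G) ≤ reg(S/J_G)` for every finite simple graph `G` and every
field `K`. -/
theorem result (K : Type*) [Field K] (n : ℕ) (G : SimpleGraph (Fin n)) :
    vEmpty K G ≤ reg (J K G) := by
  obtain ⟨k, ⟨f, hf, hfg⟩, z, hz1, hz2, hz3, hz4⟩ := BEI.main K G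
  have h1 : vEmpty K G ≤ (k : ℕ∞) := by
    refine sInf_le ⟨k, f, rfl, hf, fun g => ?_⟩
    rw [J_eq, P_eq]; exact hfg g
  have h2 : (k : ℕ∞) ≤ reg (J K G) := by
    refine le_iSup₂_of_le k ⟨k, z, hz1, hz2, fun L => ?_, ?_⟩ le_rfl
    · rw [koszul_eq, J_eq]; exact hz3 L
    · rintro ⟨g, hg⟩
      refine hz4 g fun L => ?_
      have := hg L
      rwa [koszul_eq, J_eq] at this
  exact h1.trans h2

end Pool.Agent.Results.MP_09f072_ag.VNumber
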